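import Mathlib
import Pool.Agent.H16.EDPProof

set_option autoImplicit false

namespace Pool.Agent.Results.MP_10145b_nt.ConstWeight

open Pool.Agent.H16.EDP

theorem result :
    ∃ f : ℕ → ℂ, (∀ n : ℕ, 1 ≤ n → f n = 1 ∨ f n = -1) ∧
      (∀ m n : ℕ, 1 ≤ m → 1 ≤ n → f (m * n) = f m * f n) ∧
      ∀ d n : ℕ, 1 ≤ d → 1 ≤ n →
        ‖∑ k ∈ Finset.Icc 1 n, f (d * (k + 1)) * f (d * (k + 2))‖ ≤ 2 :=
  ⟨F4, F4_pm, fun m n _ _ => F4_mul m n, fun d n hd _ => corr_bound2 d n hd⟩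

end Pool.Agent.Results.MP_10145b_nt.ConstWeight
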